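import Pool.Agent.L5helper98.CG.Defs

/-!
# CG, piece SMALL: moments of order `κ ∈ (0,1)` of a small interval
-/

set_option autoImplicit false

open MeasureTheory ProbabilityTheory Filter Topology Set
open scoped ENNReal BoundedContinuousFunction

namespace Pool.Agent.L5helper9.CG

open Pool.Agent.L5helper98.CG

lemma mvg_zero (n : ℕ) : multivariateGaussian (0 : EuclideanSpace ℝ (Fin n)) 0 = .dirac 0 := by
  simp [multivariateGaussian]

lemma gm_zero {n : ℕ} (p : Fin n → ℝ) (q : ℝ) :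
    gm (0 : Matrix (Fin n) (Fin n) ℝ) p q = ENNReal.ofReal ((∑ i, p i) ^ q) := by
  unfold gm
  rw [mvg_zero, lintegral_dirac]
  simp

lemma const_psd (n : ℕ) (v : ℝ) (hv : 0 ≤ v) :
    Matrix.PosSemidef (fun _ _ : Fin n => v : Matrix (Fin n) (Fin n) ℝ) := by
  have h := (Matrix.posSemidef_vecMulVec_self_star (fun _ : Fin n => Real.sqrt v))
  have e : (fun _ _ : Fin n => v : Matrix (Fin n) (Fin n) ℝ) =
      Matrix.vecMulVec (fun _ : Fin n => Real.sqrt v) (star fun _ : Fin n => Real.sqrt v) := by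
    ext i j
    simp [Matrix.vecMulVec_apply, Real.mul_self_sqrt hv]
  rw [e]
  exact h

/-- the sum of the weights of the cells -/
lemma sum_cells (k : ℕ) (a b : ℝ) (hab : a < b) :
    (∑ i : Fin (3 ^ k), ∫ u in Ico (((i : ℕ) : ℝ) / (3 : ℝ) ^ k)
      ((((i : ℕ) : ℝ) + 1) / (3 : ℝ) ^ k), (Ico a b).indicator (fun _ => (1 : ℝ)) u) ≤ b - a := by
  set w : ℝ → ℝ := (Ico a b).indicator (fun _ => (1 : ℝ)) with hw
  have h3 : (0 : ℝ) < (3 : ℝ) ^ k := by positivity
  have hwi : Integrable w := by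
    rw [hw, integrable_indicator_iff measurableSet_Ico]
    exact integrableOn_const (by simp)
  have h1 : ∀ i : ℕ, (∫ u in Ico ((i : ℝ) / (3 : ℝ) ^ k) (((i : ℝ) + 1) / (3 : ℝ) ^ k), w u) =
      ∫ u in ((i : ℝ) / (3 : ℝ) ^ k)..(((i + 1 : ℕ) : ℝ) / (3 : ℝ) ^ k), w u := by
    intro i
    rw [integral_Ico_eq_integral_Ioc, intervalIntegral.integral_of_le]
    · push_cast
      rfl
    · push_cast
      exact div_le_div_of_nonneg_right (by linarith) h3.le
  have h2 : (∑ i : Fin (3 ^ k), ∫ u in Ico (((i : ℕ) : ℝ) / (3 : ℝ) ^ k)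
      ((((i : ℕ) : ℝ) + 1) / (3 : ℝ) ^ k), w u) =
      ∑ i ∈ Finset.range (3 ^ k), ∫ u in Ico ((i : ℝ) / (3 : ℝ) ^ k)
        (((i : ℝ) + 1) / (3 : ℝ) ^ k), w u :=
    (Finset.sum_range (fun i : ℕ => ∫ u in Ico ((i : ℝ) / (3 : ℝ) ^ k)
      (((i : ℝ) + 1) / (3 : ℝ) ^ k), w u)).symm
  rw [h2, Finset.sum_congr rfl fun i _ => h1 i]
  calc (∑ i ∈ Finset.range (3 ^ k),
        ∫ u in ((i : ℝ) / (3 : ℝ) ^ k)..(((i + 1 : ℕ) : ℝ) / (3 : ℝ) ^ k), w u)
      = ∫ u in (((0 : ℕ) : ℝ) / (3 : ℝ) ^ k)..(((3 ^ k : ℕ) : ℝ) / (3 : ℝ) ^ k), w u :=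
        intervalIntegral.sum_integral_adjacent_intervals
          (a := fun i : ℕ => (i : ℝ) / (3 : ℝ) ^ k) fun i _ => hwi.intervalIntegrable
    _ ≤ ∫ u, w u := by
        rw [intervalIntegral.integral_of_le (by push_cast; rw [zero_div]; positivity)]
        exact setIntegral_le_integral hwi (Eventually.of_forall fun u => by
          rw [hw]; exact indicator_nonneg (fun _ _ => zero_le_one) u)
    _ = b - a := by
        rw [hw, integral_indicator measurableSet_Ico]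
        simp [hab.le]

lemma cell_nonneg (k : ℕ) (a b : ℝ) (i : ℕ) :
    0 ≤ ∫ u in Ico ((i : ℝ) / (3 : ℝ) ^ k) (((i : ℝ) + 1) / (3 : ℝ) ^ k),
      (Ico a b).indicator (fun _ => (1 : ℝ)) u :=
  integral_nonneg fun u => indicator_nonneg (fun _ _ => zero_le_one) u

lemma cell_pos (k : ℕ) (a b : ℝ) (i : ℕ)
    (h : 0 < ∫ u in Ico ((i : ℝ) / (3 : ℝ) ^ k) (((i : ℝ) + 1) / (3 : ℝ) ^ k),
      (Ico a b).indicator (fun _ => (1 : ℝ)) u) :
    (i : ℝ) / (3 : ℝ) ^ k < b ∧ a < ((i : ℝ) + 1) / (3 : ℝ) ^ k := by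
  by_contra hcon
  apply lt_irrefl (0 : ℝ)
  refine h.trans_le (le_of_eq ?_)
  rw [setIntegral_congr_fun (g := fun _ => (0 : ℝ)) measurableSet_Ico, integral_zero]
  intro u hu
  refine indicator_of_notMem (fun hm => hcon ⟨?_, ?_⟩) _
  · exact hu.1.trans_lt hm.2
  · exact hm.1.trans_lt hu.2

theorem SMALL_holds (hKAH : St_KAH) (hADD : St_ADD) (hRIE : St_RIE) (hFPSD : St_FPSD)
    (hKER : St_KER) (hBDD : St_BDD) : St_SMALL := by
  intro c r μ Ω _ P ω hF κ η hκ hκ1 hη hημ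
  have hB := hBDD c r μ hF.adm hF.mu_pos (by
    refine (hF.field.mono ?_).frequently
    intro ε hε
    exact ⟨Ω ε, inferInstance, P ε, hF.prob ε, ω ε, hε⟩)
  obtain ⟨K, ε₀, hK0, hε0, hε0', hlow⟩ := (hKER c r μ hF.adm hF.mu_pos hB).1 η hη
  refine ⟨Real.exp (K * (κ * (1 - κ)) / 2) * 2 ^ (κ * (1 - κ) * (μ - η) / 2), by positivity, ?_⟩
  have hev : ∀ᶠ ε in 𝓝[>] (0 : ℝ), ε ∈ Ioc (0 : ℝ) ε₀ :=
    Ioc_mem_nhdsGT hε0
  filter_upwards [hF.field, hev] with ε hfield hε a b ha hab hb hba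
  have hprob := hF.prob ε
  have hκ2 : 0 < κ * (1 - κ) := mul_pos hκ (by linarith)
  set M : ℝ := max (b - a) ε with hM
  have hM0 : 0 < M := lt_of_lt_of_le hε.1 (le_max_right _ _)
  have hM1 : 2 * M ≤ 1 := by
    rcases max_cases (b - a) ε with h | h
    · rw [hM, h.1]; linarith
    · rw [hM, h.1]; linarith [hε.2]
  set V : ℝ := (μ - η) * Real.log (1 / (2 * M)) with hV
  have hV0 : 0 ≤ V := by
    refine mul_nonneg (by linarith) (Real.log_nonneg ?_)
    rw [le_div_iff₀ (by positivity)]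
    linarith
  refine hRIE c r μ ε hF.adm hF.mu_pos hε.1 (by linarith [hε.2]) (Ω ε) (P ε) (ω ε) hfield
    _ (measurable_const.indicator measurableSet_Ico)
    (fun u => indicator_nonneg (fun _ _ => zero_le_one) u)
    ⟨1, fun u => indicator_le_self' (fun _ _ => zero_le_one) u⟩ κ _ ?_
  have hk : ∀ᶠ k : ℕ in atTop, (1 / 3 : ℝ) ^ k < b - a :=
    (tendsto_pow_atTop_nhds_zero_of_lt_one (by norm_num) (by norm_num)).eventually
      (gt_mem_nhds (sub_pos.2 hab))
  filter_upwards [hk] with k hk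
  have h3 : (0 : ℝ) < (3 : ℝ) ^ k := by positivity
  have h3' : 1 / (3 : ℝ) ^ k < b - a := by
    rw [one_div, inv_eq_one_div, ← one_div_pow]; exact hk
  set p : Fin (3 ^ k) → ℝ := fun i => ∫ u in Ico (((i : ℕ) : ℝ) / (3 : ℝ) ^ k)
    ((((i : ℕ) : ℝ) + 1) / (3 : ℝ) ^ k), (Ico a b).indicator (fun _ => (1 : ℝ)) u with hp
  have hp0 : ∀ i, 0 ≤ p i := fun i => cell_nonneg k a b i
  have hsum : ∑ i, p i ≤ b - a := sum_cells k a b hab
  have hsum0 : 0 ≤ ∑ i, p i := Finset.sum_nonneg fun i _ => hp0 i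
  have htm : ∀ i : Fin (3 ^ k), ((i : ℕ) : ℝ) / (3 : ℝ) ^ k ∈ Ico (0 : ℝ) 1 := by
    intro i
    refine ⟨by positivity, ?_⟩
    rw [div_lt_one h3]
    exact_mod_cast i.2
  set C : Matrix (Fin (3 ^ k)) (Fin (3 ^ k)) ℝ := fun i j =>
    cv r μ ε (dst c ((i : ℕ) / (3 : ℝ) ^ k) ((j : ℕ) / (3 : ℝ) ^ k)) with hC
  have hCpsd : C.PosSemidef := hFPSD c r μ ε (Ω ε) (P ε) (ω ε) hfield (3 ^ k)
    (fun i => ((i : ℕ) : ℝ) / (3 : ℝ) ^ k) htm
  by_cases hex : ∃ i, 0 < p i
  · -- lower bound of the covariances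
    have hCK : ∀ i j, 0 < p i → 0 < p j → V ≤ C i j + K := by
      intro i j hi hj
      obtain ⟨hi1, hi2⟩ := cell_pos k a b i hi
      obtain ⟨hj1, hj2⟩ := cell_pos k a b j hj
      set s : ℝ := ((i : ℕ) : ℝ) / (3 : ℝ) ^ k with hs
      set t : ℝ := ((j : ℕ) : ℝ) / (3 : ℝ) ^ k with ht
      have hs2 : (((i : ℕ) : ℝ) + 1) / (3 : ℝ) ^ k = s + 1 / (3 : ℝ) ^ k := by
        rw [hs]; ring
      have ht2 : (((j : ℕ) : ℝ) + 1) / (3 : ℝ) ^ k = t + 1 / (3 : ℝ) ^ k := by
        rw [ht]; ring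
      rw [hs2] at hi2
      rw [ht2] at hj2
      have hst : |s - t| ≤ 2 * (b - a) := by
        rw [abs_le]
        constructor <;> linarith
      have hst1 : |s - t| < 1 := by
        have h1 := htm i
        have h2 := htm j
        rw [abs_lt]
        constructor <;> linarith [h1.1, h1.2, h2.1, h2.2]
      have hd0 : 0 ≤ dst c s t := by
        unfold dst
        split_ifs
        · exact le_min (abs_nonneg _) (by linarith)
        · exact abs_nonneg _
      have hd1 : dst c s t ≤ |s - t| := by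
        unfold dst
        split_ifs
        · exact min_le_left _ _
        · exact le_rfl
      have hd2 : c = true → dst c s t ≤ 1 / 2 := by
        intro hc
        unfold dst
        rw [if_pos hc]
        rcases le_total (|s - t|) (1 / 2) with h | h
        · exact (min_le_left _ _).trans h
        · exact (min_le_right _ _).trans (by linarith)
      have hl := (hlow ε hε.1 hε.2 (dst c s t) hd0 (hd1.trans_lt hst1) hd2).1
      have hmax : max (dst c s t) ε ≤ 2 * M := by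
        refine max_le ?_ ?_
        · refine (hd1.trans hst).trans ?_
          have := le_max_left (b - a) ε
          rw [hM]
          linarith
        · have := le_max_right (b - a) ε
          have h0 := hε.1
          rw [hM]
          linarith
      have hmax0 : 0 < max (dst c s t) ε := lt_of_lt_of_le hε.1 (le_max_right _ _)
      have hlog : Real.log (1 / (2 * M)) ≤ Real.log (1 / max (dst c s t) ε) :=
        Real.log_le_log (by positivity) (one_div_le_one_div_of_le hmax0 hmax)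
      have : V ≤ (μ - η) * Real.log (1 / max (dst c s t) ε) :=
        mul_le_mul_of_nonneg_left hlog (by linarith)
      have hCij : C i j = cv r μ ε (dst c s t) := rfl
      rw [hCij]
      linarith
    have hCKpsd : Matrix.PosSemidef (fun i j => C i j + K : Matrix (Fin (3 ^ k)) (Fin (3 ^ k)) ℝ) :=
      hCpsd.add (const_psd _ K hK0)
    have hVpsd := const_psd (3 ^ k) V hV0
    have h1 := (hKAH (3 ^ k) (fun _ _ => V) (fun i j => C i j + K) hVpsd hCKpsd p hp0 hex hCK κ).2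
      hκ.le hκ1.le
    rw [hADD (3 ^ k) C hCpsd K hK0 p hp0 κ] at h1
    have h2 := hADD (3 ^ k) 0 Matrix.PosSemidef.zero V hV0 p hp0 κ
    simp only [Matrix.zero_apply, zero_add] at h2
    rw [h2, gm_zero] at h1
    have h4 : gm C p κ ≤ ENNReal.ofReal (Real.exp (K * (κ * (1 - κ)) / 2)) *
        (ENNReal.ofReal (Real.exp (V * (κ * (κ - 1)) / 2)) *
          ENNReal.ofReal ((∑ i, p i) ^ κ)) := by
      calc gm C p κ = ENNReal.ofReal (Real.exp (K * (κ * (1 - κ)) / 2)) *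
          (ENNReal.ofReal (Real.exp (K * (κ * (κ - 1)) / 2)) * gm C p κ) := by
            rw [← mul_assoc, ← ENNReal.ofReal_mul (Real.exp_pos _).le, ← Real.exp_add]
            have : K * (κ * (1 - κ)) / 2 + K * (κ * (κ - 1)) / 2 = 0 := by ring
            rw [this, Real.exp_zero, ENNReal.ofReal_one, one_mul]
        _ ≤ _ := mul_le_mul_right h1 _
    refine h4.trans ?_
    rw [← ENNReal.ofReal_mul (Real.exp_pos _).le, ← ENNReal.ofReal_mul (Real.exp_pos _).le]
    refine ENNReal.ofReal_le_ofReal ?_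
    have h5 : (∑ i, p i) ^ κ ≤ (b - a) ^ κ := Real.rpow_le_rpow hsum0 hsum hκ.le
    have h6 : Real.exp (V * (κ * (κ - 1)) / 2) =
        2 ^ (κ * (1 - κ) * (μ - η) / 2) * M ^ (κ * (1 - κ) * (μ - η) / 2) := by
      rw [← Real.mul_rpow (by norm_num) hM0.le, Real.rpow_def_of_pos (by positivity), hV, one_div,
        Real.log_inv]
      congr 1
      ring
    rw [h6]
    have h7 : 0 ≤ (2 : ℝ) ^ (κ * (1 - κ) * (μ - η) / 2) * M ^ (κ * (1 - κ) * (μ - η) / 2) := by
      positivity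
    calc Real.exp (K * (κ * (1 - κ)) / 2) * (2 ^ (κ * (1 - κ) * (μ - η) / 2) *
          M ^ (κ * (1 - κ) * (μ - η) / 2) * (∑ i, p i) ^ κ)
        ≤ Real.exp (K * (κ * (1 - κ)) / 2) * (2 ^ (κ * (1 - κ) * (μ - η) / 2) *
          M ^ (κ * (1 - κ) * (μ - η) / 2) * (b - a) ^ κ) := by gcongr
      _ = _ := by ring
  · -- all weights vanish
    have hp00 : ∀ i, p i = 0 := fun i => le_antisymm (not_lt.1 fun h => hex ⟨i, h⟩) (hp0 i)
    have : gm C p κ = 0 := by
      unfold gm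
      simp [hp00, Real.zero_rpow hκ.ne']
    rw [this]
    exact zero_le

end Pool.Agent.L5helper9.CG
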